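import Pool.Agent.Helper43.NG.Spec2

/-! # Part CRN of project NG: the dichotomy when `⁅γ_{k+1}, γ_{k+1}⁆` is abelian

Adaptation of the library theorem `Pool.Agent.N600.G3.core3`. -/

set_option autoImplicit false

namespace Pool.Agent.Helper54.NG

open scoped Pointwise commutatorElement
open Subgroup
open Pool.Agent.H785R3.GrowthA (NoFree)
open Pool.Agent.Helper111.EN.NSc (NS NS_ext NS_of_nilpotent_fg NS_top_iff)
open Pool.Agent.N600.G3 (card_map_pow one_le_card card_pow_mul_le)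
open Pool.Agent.Helper43.NG (gam Gpp Ck S_RDN S_CRN S_MNN S_FNN)

universe u

lemma map_gam {G G' : Type*} [Group G] [Group G'] (π : G →* G') (hπ : Function.Surjective π)
    (k : ℕ) : ((⊤ : Subgroup G).lowerCentralSeries k).map π =
      (⊤ : Subgroup G').lowerCentralSeries k := by
  rw [map_lowerCentralSeries, map_top_of_surjective π hπ]

lemma nil_quot (G : Type u) [Group G] (k : ℕ) : Group.IsNilpotent (G ⧸ gam G k) := by
  refine Subgroup.nilpotent_iff_lowerCentralSeries.2 ⟨k, ?_⟩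
  rw [← map_gam (QuotientGroup.mk' (gam G k)) (QuotientGroup.mk'_surjective _), eq_bot_iff]
  rintro _ ⟨x, hx, rfl⟩
  rw [Subgroup.mem_bot]
  exact (QuotientGroup.eq_one_iff x).2 hx

lemma Ck_pos (k : ℕ) : 3 ≤ 4 * Ck k := by
  unfold Ck
  have : 1 ≤ 2 ^ k := Nat.one_le_two_pow
  nlinarith

theorem crn (hR : S_RDN.{u}) : S_CRN.{u} := by
  intro G _ T hfin h1T hinv hgen k hk habel
  have up : (∀ n : ℕ, 2 ^ n ≤ (Nat.card ↥(T ^ n)) ^ 3) →
      ∀ n : ℕ, 2 ^ n ≤ (Nat.card ↥(T ^ n)) ^ (4 * Ck k) := fun h n =>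
    (h n).trans (Nat.pow_le_pow_right (one_le_card hfin h1T n) (Ck_pos k))
  by_cases hNF : NoFree T 3
  swap
  · left
    exact up fun n => Pool.Agent.TH555.FG.two_pow_of_pair hfin hNF n
  have hFG : (gam G k).FG :=
    Pool.Agent.TH555.FG.fg_of_nilpotent_quotient hfin hgen hNF (gam G k) (nil_quot G k)
  by_cases hN : (commutator (gam G k)).FG
  swap
  · left
    obtain ⟨K, hK, h⟩ := hR G T hfin h1T hinv hgen k hk hFG habel hN
    intro n
    have h1 := h n
    have h2 : Nat.card ↥(T ^ (Ck k * K * n)) ≤ (Nat.card ↥(T ^ n)) ^ (Ck k * K) :=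
      card_pow_mul_le T n _
    have h3 : (2 ^ n) ^ K ≤ ((Nat.card ↥(T ^ n)) ^ (4 * Ck k)) ^ K := by
      calc (2 ^ n) ^ K = 2 ^ (K * n) := by rw [← pow_mul, mul_comm]
        _ ≤ (Nat.card ↥(T ^ (Ck k * K * n))) ^ 4 := h1
        _ ≤ ((Nat.card ↥(T ^ n)) ^ (Ck k * K)) ^ 4 := Nat.pow_le_pow_left h2 4
        _ = _ := by rw [← pow_mul, ← pow_mul]; congr 1; ring
    exact (Nat.pow_le_pow_iff_left (by omega)).1 h3
  -- the quotient by the derived subgroup of `γ_{k+1}`
  let D : Subgroup G := (commutator (gam G k)).map (gam G k).subtype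
  have hD : D = ⁅gam G k, gam G k⁆ := map_subtype_commutator (gam G k)
  have hDn : D.Normal := by rw [hD]; infer_instance
  let π : G →* G ⧸ D := QuotientGroup.mk' D
  have hπ : Function.Surjective π := QuotientGroup.mk'_surjective D
  have hgen' : closure (π '' T) = ⊤ := by
    rw [← MonoidHom.map_closure, hgen, ← MonoidHom.range_eq_map]
    exact MonoidHom.range_eq_top.2 hπ
  by_cases hNF' : NoFree (π '' T) 3
  swap
  · left
    refine up fun n => ?_
    exact (Pool.Agent.TH555.FG.two_pow_of_pair (hfin.image π) hNF' n).trans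
      (Nat.pow_le_pow_left (card_map_pow π T hfin n) 3)
  right
  refine NS_ext π ⊤ ?_ ?_
  · intro R _
    refine Pool.Agent.TH555.FG.noeth_of_noFree (hfin.image π) hgen' hNF' (gam (G ⧸ D) k)
      (nil_quot (G ⧸ D) k) ?_ R
    intro P hP hPfg R' hR'
    refine Pool.Agent.TH555.FG.sub_fg hPfg ?_ hR'
    intro a ha b hb
    have h1 := hP ha
    have h2 := hP hb
    rw [show gam (G ⧸ D) k = (gam G k).map π from (map_gam π hπ k).symm] at h1 h2
    obtain ⟨x, hx, rfl⟩ := h1
    obtain ⟨y, hy, rfl⟩ := h2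
    have h3 : x * y * x⁻¹ * y⁻¹ ∈ D := by
      rw [hD]
      exact commutator_mem_commutator hx hy
    have h4 : π (x * y * x⁻¹ * y⁻¹) = 1 := (QuotientGroup.eq_one_iff _).2 h3
    rw [map_mul, map_mul, map_mul, map_inv, map_inv, mul_inv_eq_one, mul_inv_eq_iff_eq_mul] at h4
    exact h4
  · rw [QuotientGroup.ker_mk', top_inf_eq]
    intro R hR
    have hDfg : D.FG := Pool.Agent.TH555.FG.fg_map (gam G k).subtype hN
    refine Pool.Agent.TH555.FG.sub_fg hDfg ?_ hR
    rintro _ ⟨x, hx, rfl⟩ _ ⟨y, hy, rfl⟩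
    rw [← map_mul, ← map_mul, habel x hx y hy]

end Pool.Agent.Helper54.NG
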