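import Pool.Agent.Helper54.NG.MNN

/-! # Part FNN of project NG: the final statement

Adaptation of the library theorem `Pool.Agent.N600.G3.final`. -/

set_option autoImplicit false

namespace Pool.Agent.Helper54.NG

open scoped Pointwise commutatorElement
open Subgroup Filter Topology
open Pool.Agent.Helper111.EN.NSc (NS NS_ext NS_of_nilpotent_fg NS_top_iff)
open Pool.Agent.N600.G3 (NS_of_index)
open Pool.Agent.Helper43.NG (gam Gpp Ck S_RDN S_CRN S_MNN S_FNN)

universe u

lemma rho_ge {G : Type u} [Group G] (S : Set G) (c : ℕ) (hc : 0 < c)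
    (h : ∀ n, 2 ^ n ≤ Nat.card ↥(S ^ n) ^ c) :
    Real.log 2 / c ≤ H746UG.rho S := by
  refine ge_of_tendsto (H746UG.tendsto_rho S) ?_
  filter_upwards [eventually_gt_atTop 0] with n hn
  have h1 := h n
  have h2 : 0 < Nat.card ↥(S ^ n) := Nat.pos_of_ne_zero (fun h3 => by
    rw [h3, zero_pow (by omega)] at h1
    exact absurd h1 (by have := Nat.one_le_two_pow (n := n); omega))
  have h3 : Real.log ((2 : ℝ) ^ n) ≤ Real.log ((Nat.card ↥(S ^ n) : ℝ) ^ c) := by
    apply Real.log_le_log (by positivity)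
    exact_mod_cast h1
  rw [Real.log_pow, Real.log_pow] at h3
  have hn' : (0 : ℝ) < n := by exact_mod_cast hn
  have hc' : (0 : ℝ) < c := by exact_mod_cast hc
  rw [div_le_div_iff₀ hc' hn']
  linarith

theorem fnn (hM : S_MNN.{u}) : S_FNN.{u} := by
  intro G _ S hfin hsym hgen k hk H d hH hd
  rcases S.eq_empty_or_nonempty with hS | hne
  · right
    have htriv : ∀ x : G, x = 1 := by
      intro x
      have hx : x ∈ closure S := by rw [hgen]; exact mem_top x
      rw [hS, Subgroup.closure_empty, Subgroup.mem_bot] at hx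
      exact hx
    have hs : Subsingleton G := ⟨fun a b => by rw [htriv a, htriv b]⟩
    have hsH : Subsingleton H := inferInstance
    have hsQ : Subsingleton (H ⧸ Gpp H k) := inferInstance
    refine ⟨fun K => ?_, fun _ K => ?_⟩
    · exact (Subgroup.fg_iff _).2 ⟨∅, Subsingleton.elim _ _, Set.finite_empty⟩
    · exact (Subgroup.fg_iff _).2 ⟨∅, Subsingleton.elim _ _, Set.finite_empty⟩
  have hd1 : 1 ≤ d := by omega
  set T := W963.GE.TT S H d with hT
  have hTfin : T.Finite := W963.GE.TT_finite S hfin H d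
  have hTgen : closure T = ⊤ := W963.GE.TT_gen S hgen H hH hd
  have h1T : (1 : H) ∈ T := by
    show ((1 : H) : G) ∈ (insert 1 S) ^ (2 * d - 1)
    have : (1 : G) ∈ insert 1 S := Set.mem_insert _ _
    simpa using Set.pow_mem_pow (n := 2 * d - 1) this
  have hinv1 : (insert 1 S)⁻¹ = insert 1 S := by
    rw [Set.inv_insert, inv_one, hsym]
  have hTinv : T⁻¹ = T := by
    ext x
    rw [Set.mem_inv]
    constructor
    · intro hx
      have := Pool.Agent.N600.G3.inv_mem_pow hinv1
        (show ((x⁻¹ : H) : G) ∈ (insert 1 S) ^ (2 * d - 1) from hx)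
      rw [← coe_inv, inv_inv] at this
      exact this
    · intro hx
      exact Pool.Agent.N600.G3.inv_mem_pow hinv1
        (show (x : G) ∈ (insert 1 S) ^ (2 * d - 1) from hx)
  rcases hM H T hTfin h1T hTinv hTgen k hk with h | ⟨h1, h2⟩
  · left
    have hC : 0 < 4 * Ck k := by have := Ck_pos k; omega
    have h3 := rho_ge T (4 * Ck k) hC h
    have h4 := W963.GE.rho_TT S hfin hne H hd1
    have he : ((2 * d - 1 : ℕ) : ℝ) = 2 * d - 1 := by
      rw [Nat.cast_sub (by omega)]; push_cast; ring
    rw [he] at h4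
    have hpos : (0 : ℝ) < 2 * d - 1 := by
      have : (1 : ℝ) ≤ d := by exact_mod_cast hd1
      linarith
    have h5 := h3.trans h4
    rw [← div_div, div_le_iff₀ hpos, mul_comm (H746UG.rho S)]
    have he2 : ((4 * Ck k : ℕ) : ℝ) = 4 * Ck k := by push_cast; ring
    rw [he2] at h5
    exact h5
  · right
    refine ⟨fun K => h1 K le_top, fun hnil K => NS_of_index H hH (h2 hnil) K⟩

end Pool.Agent.Helper54.NG
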