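import Pool.Agent.Helper54.NG.CRN

/-! # Part MNN of project NG: the general dichotomy

Adaptation of the library theorem `Pool.Agent.N600.G3.main`. -/

set_option autoImplicit false

namespace Pool.Agent.Helper54.NG

open scoped Pointwise commutatorElement
open Subgroup
open Pool.Agent.Helper111.EN.NSc (NS NS_ext NS_of_nilpotent_fg NS_top_iff)
open Pool.Agent.N600.G3 (card_map_pow one_le_card card_pow_mul_le)
open Pool.Agent.Helper43.NG (gam Gpp Ck S_RDN S_CRN S_MNN S_FNN)

universe u

theorem mnn (hC : S_CRN.{u}) : S_MNN.{u} := by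
  intro G _ T hfin h1T hinv hgen k hk
  let D := Gpp G k
  let M : Subgroup G := ⁅gam G k, gam G k⁆
  let π : G →* G ⧸ D := QuotientGroup.mk' D
  have hπ : Function.Surjective π := QuotientGroup.mk'_surjective D
  have hgen' : closure (π '' T) = ⊤ := by
    rw [← MonoidHom.map_closure, hgen, ← MonoidHom.range_eq_map]
    exact MonoidHom.range_eq_top.2 hπ
  have hinv' : (π '' T)⁻¹ = π '' T := by
    rw [← Set.image_inv, hinv]
  have h1' : (1 : G ⧸ D) ∈ π '' T := ⟨1, h1T, map_one π⟩
  have hbot : Gpp (G ⧸ D) k = ⊥ := by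
    have e : Gpp (G ⧸ D) k = (Gpp G k).map π := by
      unfold Gpp
      rw [map_commutator, map_commutator, map_gam π hπ k]
    rw [e, eq_bot_iff]
    rintro _ ⟨x, hx, rfl⟩
    rw [Subgroup.mem_bot]
    exact (QuotientGroup.eq_one_iff x).2 hx
  have habel : ∀ x ∈ commutator (gam (G ⧸ D) k), ∀ y ∈ commutator (gam (G ⧸ D) k),
      x * y = y * x := by
    intro x hx y hy
    have hx' : (x : G ⧸ D) ∈ ⁅gam (G ⧸ D) k, gam (G ⧸ D) k⁆ := by
      rw [← map_subtype_commutator]; exact ⟨x, hx, rfl⟩
    have hy' : (y : G ⧸ D) ∈ ⁅gam (G ⧸ D) k, gam (G ⧸ D) k⁆ := by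
      rw [← map_subtype_commutator]; exact ⟨y, hy, rfl⟩
    have h1 : ⁅(x : G ⧸ D), (y : G ⧸ D)⁆ ∈ Gpp (G ⧸ D) k :=
      commutator_mem_commutator hx' hy'
    rw [hbot, Subgroup.mem_bot, commutatorElement_eq_one_iff_mul_comm] at h1
    exact Subtype.ext h1
  rcases hC (G ⧸ D) (π '' T) (hfin.image π) h1' hinv' hgen' k hk habel with h | h
  · left
    intro n
    exact (h n).trans (Nat.pow_le_pow_left (card_map_pow π T hfin n) _)
  · right
    refine ⟨h, fun hnil => ?_⟩
    -- the derived subgroup of `γ_{k+1}` is finitely generated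
    have h2 : (M.map π).FG := h _ le_top
    obtain ⟨F₀, hF₀, hF₀fin⟩ := (Subgroup.fg_iff _).1 h2
    have hlift : ∀ x : G ⧸ D, ∃ y : G, x ∈ F₀ → y ∈ M ∧ π y = x := by
      intro x
      by_cases hx : x ∈ F₀
      · have : x ∈ M.map π := by rw [← hF₀]; exact Subgroup.subset_closure hx
        obtain ⟨y, hy, rfl⟩ := this
        exact ⟨y, fun _ => ⟨hy, rfl⟩⟩
      · exact ⟨1, fun h => absurd h hx⟩
    choose f hf using hlift
    have hFsub : f '' F₀ ⊆ (M : Set G) := by
      rintro _ ⟨x, hx, rfl⟩; exact (hf x hx).1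
    have hD3 : D = ⁅M, M⁆ := rfl
    have hgen2 : M = closure (f '' F₀) ⊔ ⁅M, M⁆ := by
      apply le_antisymm
      · intro z hz
        have h3 : π z ∈ (closure (f '' F₀)).map π := by
          have h4 : (closure (f '' F₀)).map π = closure F₀ := by
            rw [MonoidHom.map_closure]
            congr 1
            rw [← Set.image_comp]
            ext x
            constructor
            · rintro ⟨y, hy, rfl⟩
              show π (f y) ∈ F₀
              rw [(hf y hy).2]; exact hy
            · intro hx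
              exact ⟨x, hx, (hf x hx).2⟩
          rw [h4, hF₀]
          exact ⟨z, hz, rfl⟩
        obtain ⟨w, hw, hwz⟩ := h3
        have h5 : w⁻¹ * z ∈ D := by
          rw [← QuotientGroup.eq_one_iff]
          show π (w⁻¹ * z) = 1
          rw [map_mul, map_inv, hwz, inv_mul_cancel]
        rw [hD3] at h5
        have : z = w * (w⁻¹ * z) := by group
        rw [this]
        exact mul_mem (mem_sup_left hw) (mem_sup_right h5)
      · refine sup_le ((closure_le _).2 hFsub) ?_
        exact commutator_le_left _ _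
    have h6 := Pool.Agent.H785R3.GrowthA.nilp_gen hnil hFsub hgen2
    have h7 : M.FG := (Subgroup.fg_iff _).2 ⟨_, h6, hF₀fin.image f⟩
    have h8 : NS M := NS_of_nilpotent_fg _ hnil h7
    -- extension
    have hle : D ≤ M := commutator_le_left _ _
    refine NS_ext (QuotientGroup.mk' M) ⊤ ?_ ?_
    · let θ : G ⧸ D →* G ⧸ M :=
        QuotientGroup.map D M (MonoidHom.id G) hle
      have h9 := h.map θ
      intro R _
      refine h9 R ?_
      intro x _
      obtain ⟨x, rfl⟩ := QuotientGroup.mk_surjective x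
      exact ⟨QuotientGroup.mk x, mem_top _, rfl⟩
    · rw [QuotientGroup.ker_mk', top_inf_eq]
      exact h8

end Pool.Agent.Helper54.NG
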