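import Pool.Agent.Helper43.NG.Spec3
import Pool.Agent.Helper54.NG.CRN

/-! # Part COM of project NG: the dichotomy for an arbitrary group, with Mahler measures

Adaptation of the library theorem `Pool.Agent.N600.L3.core5`. -/

set_option autoImplicit false

namespace Pool.Agent.Helper54.NG

open scoped Pointwise commutatorElement
open Subgroup Filter Topology Polynomial
open Pool.Agent.N600.G3 (f_one card_pow_mul_le one_le_card card_map_pow)
open Pool.Agent.N600.L3 (rho_map S_INTG S_HALL S_EIGT)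
open Pool.Agent.W963.GE (MM MM_ge UnitNotRoot)
open Pool.Agent.H785R3.GrowthA (NoFree)
open Pool.Agent.TH53.UG (act act_of)
open Pool.Agent.Y552.CP (vn_of_surj vn_quot_mono)
open Pool.Agent.Helper43.NG (gam Gpp Ck S_RDN S_EIM S_COM)

universe u

lemma der2g_map (G : Type u) [Group G] (k : ℕ) :
    (commutator (gam G k)).map (gam G k).subtype = ⁅gam G k, gam G k⁆ :=
  map_subtype_commutator _

lemma der3g_map (G : Type u) [Group G] (k : ℕ) :
    (derivedSeries (gam G k) 2).map (gam G k).subtype = Gpp G k := by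
  have h1 : derivedSeries (gam G k) 2 =
      ⁅commutator (gam G k), commutator (gam G k)⁆ := by
    rw [derivedSeries_succ, derivedSeries_one]
  rw [h1, map_commutator, der2g_map]
  rfl

/-- finiteness in the case of small growth -/
theorem fgn (hR : S_RDN.{u}) {G : Type u} [Group G] (T : Set G) (hfin : T.Finite) (h1T : 1 ∈ T)
    (hinv : T⁻¹ = T) (hgen : closure T = ⊤) (k : ℕ) (hk : 1 ≤ k)
    (habel : ∀ x ∈ commutator (gam G k), ∀ y ∈ commutator (gam G k), x * y = y * x) :
    (∀ n : ℕ, 2 ^ n ≤ (Nat.card ↥(T ^ n)) ^ (4 * Ck k)) ∨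
      ((gam G k).FG ∧ (commutator (gam G k)).FG) := by
  have up : (∀ n : ℕ, 2 ^ n ≤ (Nat.card ↥(T ^ n)) ^ 3) →
      ∀ n : ℕ, 2 ^ n ≤ (Nat.card ↥(T ^ n)) ^ (4 * Ck k) := fun h n =>
    (h n).trans (Nat.pow_le_pow_right (one_le_card hfin h1T n) (Ck_pos k))
  by_cases hNF : NoFree T 3
  swap
  · left
    exact up fun n => Pool.Agent.TH555.FG.two_pow_of_pair hfin hNF n
  have hFG : (gam G k).FG :=
    Pool.Agent.TH555.FG.fg_of_nilpotent_quotient hfin hgen hNF (gam G k) (nil_quot G k)
  by_cases hN : (commutator (gam G k)).FG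
  · exact Or.inr ⟨hFG, hN⟩
  · left
    obtain ⟨K, hK, h⟩ := hR G T hfin h1T hinv hgen k hk hFG habel hN
    intro n
    have h1 := h n
    have h2 : Nat.card ↥(T ^ (Ck k * K * n)) ≤ (Nat.card ↥(T ^ n)) ^ (Ck k * K) :=
      card_pow_mul_le T n _
    have h3 : (2 ^ n) ^ K ≤ ((Nat.card ↥(T ^ n)) ^ (4 * Ck k)) ^ K := by
      calc (2 ^ n) ^ K = 2 ^ (K * n) := by rw [← pow_mul, mul_comm]
        _ ≤ (Nat.card ↥(T ^ (Ck k * K * n))) ^ 4 := h1
        _ ≤ ((Nat.card ↥(T ^ n)) ^ (Ck k * K)) ^ 4 := Nat.pow_le_pow_left h2 4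
        _ = _ := by rw [← pow_mul, ← pow_mul]; congr 1; ring
    exact (Nat.pow_le_pow_iff_left (by omega)).1 h3

/-- the dichotomy for an arbitrary group -/
theorem com' (hI : S_INTG.{u}) (hH : S_HALL.{u}) (hEg : S_EIGT.{u}) (hR : S_RDN.{u})
    (hE : S_EIM.{u}) : S_COM.{u} := by
  intro G _ T hfin h1T hinv hgen k hk
  by_cases hNF : NoFree T 3
  swap
  · left
    exact fun n => (Pool.Agent.TH555.FG.two_pow_of_pair hfin hNF n).trans
      (Nat.pow_le_pow_right (one_le_card hfin h1T n) (Ck_pos k))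
  have hFG : (gam G k).FG :=
    Pool.Agent.TH555.FG.fg_of_nilpotent_quotient hfin hgen hNF (gam G k) (nil_quot G k)
  let D := Gpp G k
  let π : G →* G ⧸ D := QuotientGroup.mk' D
  have hπ : Function.Surjective π := QuotientGroup.mk'_surjective D
  have hgen' : closure (π '' T) = ⊤ := by
    rw [← MonoidHom.map_closure, hgen, ← MonoidHom.range_eq_map]
    exact MonoidHom.range_eq_top.2 hπ
  have hinv' : (π '' T)⁻¹ = π '' T := by
    rw [← Set.image_inv, hinv]
  have h1' : (1 : G ⧸ D) ∈ π '' T := ⟨1, h1T, map_one π⟩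
  have hbot : Gpp (G ⧸ D) k = ⊥ := by
    have e : Gpp (G ⧸ D) k = (Gpp G k).map π := by
      unfold Gpp
      rw [map_commutator, map_commutator, map_gam π hπ k]
    rw [e, eq_bot_iff]
    rintro _ ⟨x, hx, rfl⟩
    rw [Subgroup.mem_bot]
    exact (QuotientGroup.eq_one_iff x).2 hx
  have habel : ∀ x ∈ commutator (gam (G ⧸ D) k), ∀ y ∈ commutator (gam (G ⧸ D) k),
      x * y = y * x := by
    intro x hx y hy
    have hx' : (x : G ⧸ D) ∈ ⁅gam (G ⧸ D) k, gam (G ⧸ D) k⁆ := by
      rw [← map_subtype_commutator]; exact ⟨x, hx, rfl⟩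
    have hy' : (y : G ⧸ D) ∈ ⁅gam (G ⧸ D) k, gam (G ⧸ D) k⁆ := by
      rw [← map_subtype_commutator]; exact ⟨y, hy, rfl⟩
    have h1 : ⁅(x : G ⧸ D), (y : G ⧸ D)⁆ ∈ Gpp (G ⧸ D) k :=
      commutator_mem_commutator hx' hy'
    rw [hbot, Subgroup.mem_bot, commutatorElement_eq_one_iff_mul_comm] at h1
    exact Subtype.ext h1
  rcases fgn hR (π '' T) (hfin.image π) h1' hinv' hgen' k hk habel with h | ⟨hFGq, hNq⟩
  · left
    intro n
    exact (h n).trans (Nat.pow_le_pow_left (card_map_pow π T hfin n) _)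
  -- the derived subgroups
  have hcm : (gam G k).map π = gam (G ⧸ D) k := map_gam π hπ k
  let j : gam G k →* gam (G ⧸ D) k :=
    (π.comp (gam G k).subtype).codRestrict _ (fun x => by
      rw [← hcm]
      exact mem_map_of_mem _ x.2)
  have hj : ∀ x, ((j x : gam (G ⧸ D) k) : G ⧸ D) = π x := fun x => rfl
  have hjs : Function.Surjective j := by
    rintro ⟨y, hy⟩
    rw [← hcm] at hy
    obtain ⟨x, hx, rfl⟩ := hy
    exact ⟨⟨x, hx⟩, rfl⟩
  have hker : j.ker ≤ derivedSeries (gam G k) 2 := by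
    intro m hm
    have h1 : π (m : G) = 1 := congrArg Subtype.val hm
    have h2 : (m : G) ∈ Gpp G k := (QuotientGroup.eq_one_iff _).1 h1
    rw [← der3g_map] at h2
    obtain ⟨m', hm', h3⟩ := h2
    have : m' = m := Subtype.ext h3
    rwa [← this]
  by_cases hnv : Group.IsVirtuallyNilpotent (gam (G ⧸ D) k)
  · right; left
    have hV : Group.IsVirtuallyNilpotent (gam G k ⧸ derivedSeries (gam G k) 2) := by
      refine vn_quot_mono hker ?_
      exact vn_of_surj (φ := (QuotientGroup.quotientKerEquivOfSurjective j hjs).symm.toMonoidHom)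
        (QuotientGroup.quotientKerEquivOfSurjective j hjs).symm.surjective hnv
    refine ⟨hV, fun hnil => ?_⟩
    have hFG' : Group.FG (gam G k) := (Group.fg_iff_subgroup_fg _).2 hFG
    refine hH (gam G k) ?_ hV
    have e1 : (commutator (gam G k)) ≃* ((commutator (gam G k)).map
        (gam G k).subtype) :=
      (commutator (gam G k)).equivMapOfInjective _ (gam G k).subtype_injective
    have e2 : ((commutator (gam G k)).map (gam G k).subtype) ≃*
        (⁅gam G k, gam G k⁆ : Subgroup G) :=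
      MulEquiv.subgroupCongr (der2g_map G k)
    exact Group.nilpotent_of_mulEquiv (e1.trans e2).symm
  right; right
  obtain ⟨χ, f, m, hf1, hf2, hf3, hm, hρ⟩ := hE (G ⧸ D) (π '' T) (hfin.image π) h1'
    hinv' hgen' k hk habel hFGq hNq hnv
  have hint := hI (gam (G ⧸ D) k) hNq χ f hf1 hf2 hf3
  obtain ⟨t, rfl⟩ := hjs m
  have hle : (⁅gam G k, gam G k⁆ : Subgroup G) ≤ gam G k := commutator_le_left _ _
  -- the map from `⁅Γ, Γ⁆`
  have hkm : ∀ y : (⁅gam G k, gam G k⁆ : Subgroup G),
      j ⟨y, hle y.2⟩ ∈ commutator (gam (G ⧸ D) k) := by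
    rintro ⟨y, hy⟩
    have h1 : (⟨y, hle hy⟩ : gam G k) ∈ commutator (gam G k) := by
      have h2 := hy
      rw [← der2g_map] at h2
      obtain ⟨m', hm', h3⟩ := h2
      have : m' = ⟨y, hle hy⟩ := Subtype.ext h3
      rwa [← this]
    have h4 : (commutator (gam G k)).map j ≤ commutator (gam (G ⧸ D) k) := by
      rw [_root_.commutator_def ↥(gam G k), map_commutator]
      exact commutator_mono le_top le_top
    exact h4 (mem_map_of_mem _ h1)
  let q : (⁅gam G k, gam G k⁆ : Subgroup G) →* commutator (gam (G ⧸ D) k) :=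
    { toFun := fun y => ⟨j ⟨y, hle y.2⟩, hkm y⟩
      map_one' := by
        apply Subtype.ext
        show j ⟨((1 : (⁅gam G k, gam G k⁆ : Subgroup G)) : G), _⟩ = 1
        rw [← map_one j]; rfl
      map_mul' := by
        intro a b
        apply Subtype.ext
        show j ⟨((a * b : (⁅gam G k, gam G k⁆ : Subgroup G)) : G), _⟩ = j ⟨a, _⟩ * j ⟨b, _⟩
        rw [← map_mul]; rfl }
  have hq : ∀ y, ((q y : commutator (gam (G ⧸ D) k)) : gam (G ⧸ D) k) =
    j ⟨y, hle y.2⟩ := fun y => rfl
  have hqs : Function.Surjective q := by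
    rintro ⟨z, hz⟩
    have h4 : (commutator (gam G k)).map j = commutator (gam (G ⧸ D) k) := by
      rw [_root_.commutator_def ↥(gam G k), map_commutator,
        map_top_of_surjective j hjs]
      rfl
    rw [← h4] at hz
    obtain ⟨y, hy, rfl⟩ := hz
    have h5 : (y : G) ∈ (⁅gam G k, gam G k⁆ : Subgroup G) := by
      rw [← der2g_map]
      exact ⟨y, hy, rfl⟩
    exact ⟨⟨y, h5⟩, Subtype.ext rfl⟩
  let F0 : (⁅gam G k, gam G k⁆ : Subgroup G) →* Multiplicative ℂ :=
    { toFun := fun y => Multiplicative.ofAdd (f (q y))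
      map_one' := by
        rw [map_one]
        have := f_one hf1
        show Multiplicative.ofAdd (f 1) = 1
        rw [this]; rfl
      map_mul' := by
        intro a b
        rw [map_mul]
        show Multiplicative.ofAdd (f ((q a : gam (G ⧸ D) k) * (q b : gam (G ⧸ D) k))) = _
        rw [hf1 _ (q a).2 _ (q b).2]; rfl }
  let F : Additive (Abelianization (⁅gam G k, gam G k⁆ : Subgroup G)) →+ ℂ :=
    AddMonoidHom.mk' (fun y => (Abelianization.lift F0 y.toMul).toAdd) (by
      intro a b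
      show (Abelianization.lift F0 (a.toMul * b.toMul)).toAdd = _
      rw [map_mul]; rfl)
  have hF : ∀ y : (⁅gam G k, gam G k⁆ : Subgroup G),
      F (Additive.ofMul (Abelianization.of y)) = f (q y) := by
    intro y
    show (Abelianization.lift F0 (Abelianization.of y)).toAdd = _
    rw [Abelianization.lift_apply_of]; rfl
  have hFeq : ∀ y, F (act (⁅gam G k, gam G k⁆ : Subgroup G) t y) = (χ (j t) : ℂ) * F y := by
    intro y
    obtain ⟨y, rfl⟩ : ∃ y' : (⁅gam G k, gam G k⁆ : Subgroup G),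
        Additive.ofMul (Abelianization.of y') = y := by
      obtain ⟨y', hy'⟩ := QuotientGroup.mk_surjective
        (s := commutator (⁅gam G k, gam G k⁆ : Subgroup G)) y.toMul
      exact ⟨y', congrArg Additive.ofMul hy'⟩
    rw [act_of, hF, hF]
    have h1 : (q (MulAut.conjNormal (t : G) y) : gam (G ⧸ D) k) =
        j t * (q y : gam (G ⧸ D) k) * (j t)⁻¹ := by
      rw [hq, hq, ← map_inv, ← map_mul, ← map_mul]
      congr 1
    rw [h1, hf2 _ _ (q y).2]
  have hF0 : F ≠ 0 := by
    obtain ⟨z, hz, hfz⟩ := hf3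
    obtain ⟨y, hy⟩ := hqs ⟨z, hz⟩
    intro h
    apply hfz
    have h1 := hF y
    rw [h, hy] at h1
    exact h1.symm
  refine ⟨χ (j t), t, ⟨Units.ne_zero _, (hint _).1, ?_, ?_⟩, t.2, hEg _ _ _ F hF0 hFeq, ?_, ?_⟩
  · have h1 := (hint (j t)⁻¹).1
    rw [map_inv, Units.val_inv_eq_inv_val] at h1
    exact h1
  · intro n hn h
    apply hm n hn
    apply Units.ext
    rw [Units.val_pow_eq_pow_val, h, Units.val_one]
  · intro r hr
    refine (hint (j t)).2 r (le_trans ?_ hr)
    have h1 : Function.Surjective (Abelianization.map q) := by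
      intro z
      obtain ⟨z', hz'⟩ := QuotientGroup.mk_surjective
        (s := commutator (commutator (gam (G ⧸ D) k))) z
      obtain ⟨y, hy⟩ := hqs z'
      refine ⟨Abelianization.of y, ?_⟩
      rw [Abelianization.map_of, hy]
      exact hz'
    exact LinearMap.rank_le_of_surjective
      (MonoidHom.toAdditive (Abelianization.map q)).toIntLinearMap h1
  · exact hρ.trans (rho_map π T hfin h1T)

theorem com (hR : S_RDN.{u}) (hE : S_EIM.{u}) : S_COM.{u} :=
  com' Pool.Agent.N401.L3.t_intg Pool.Agent.N40.L3.t_hall Pool.Agent.N433.L3.t_eigt hR hE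

end Pool.Agent.Helper54.NG
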